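import Pool.Agent.helper63.TI.SpecG

/-!
# TI, row GFD: the determinant relation for all branch points
-/

set_option autoImplicit false

namespace Pool.Agent.TI

open Polynomial NumberField Pool.Agent.GJ Pool.Agent.TK Pool.Agent.TQ Pool.Agent.TFQ Pool.Agent.TD
open Pool.Agent.FJ (VT Om chiO IsFrobO rf rs)

noncomputable section

theorem GFD_iota : Nonempty (Om →+* ℂ) := by
  have : Algebra.IsAlgebraic ℚ Om := AlgebraicClosure.isAlgebraic ℚ
  exact ⟨(IsAlgClosed.lift : Om →ₐ[ℚ] ℂ).toRingHom⟩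

theorem GFD_count : Countable Om := by
  rw [← Cardinal.mk_le_aleph0_iff]
  have h : Algebra.IsAlgebraic ℚ (AlgebraicClosure ℚ) := AlgebraicClosure.isAlgebraic ℚ
  refine (Algebra.IsAlgebraic.cardinalMk_le_max ℚ (AlgebraicClosure ℚ)).trans ?_
  simp

theorem GFD_fixpow (σ : Om ≃+* Om) (x : Om) (h : σ x = x) (n : ℕ) : (σ ^ n) x = x := by
  induction n with
  | zero => rfl
  | succ n ih =>
    rw [pow_succ']
    show σ ((σ ^ n) x) = x
    rw [ih, h]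

theorem GFD_ne (l : ℕ) [Fact l.Prime] : NeZero (l : Om) := ⟨by exact_mod_cast (Fact.out (p := l.Prime)).ne_zero⟩

theorem GFD_root (l : ℕ) [Fact l.Prime] (g : Om ≃+* Om) (hg : ∀ x : Om, x ^ l = 1 → g x = x) (s : rootsOfUnity l Om) :
    g ((s : Omˣ) : Om) = ((s : Omˣ) : Om) := by
  apply hg
  rw [← Units.val_pow_eq_pow_val, (mem_rootsOfUnity l _).1 s.2, Units.val_one]

section one
variable (l n q : ℕ) [Fact l.Prime] [Fact q.Prime] (μ : Fin (n + 1) → ℕ) (a : Fin (n + 1) → Om) [Good Om l μ a]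

theorem GFD_free (hVF : VF_stmt) (hDD : GJ.DD_stmt) (hl : l ≠ 2) (hn : 0 < n) (s : rootsOfUnity l Om) (hs : Prim s) :
    IsFreeZ l n (zK q s : Module.End ℚ_[q] (VT q (JC Om l μ a))) := by
  have hne := GFD_ne l
  have hded : IsDedekindDomain (CR Om l μ a) := hDD Om l n μ a
  obtain ⟨ι⟩ := GFD_iota
  have hcount : Countable Om := GFD_count
  exact hVF Om ι l n q hl hn μ a s hs

theorem GFD_sum (hNBK : NBK_stmt) (hDD : GJ.DD_stmt) (s : rootsOfUnity l Om) (hs : Prim s) :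
    ∑ i ∈ Finset.range l, (zK q s : Module.End ℚ_[q] (VT q (JC Om l μ a))) ^ i = 0 := by
  have hne := GFD_ne l
  have hded : IsDedekindDomain (CR Om l μ a) := hDD Om l n μ a
  exact (hNBK Om l n q μ a).2.2.2.1 s hs

theorem GFD_comm (hNBK : NBK_stmt) (hDD : GJ.DD_stmt) (s : rootsOfUnity l Om) (g : Om ≃+* Om) (hg : ∀ j, g (a j) = a j)
    (hgr : ∀ x : Om, x ^ l = 1 → g x = x) :
    (VT.map q (actA g hg (1 : rootsOfUnity l Om)) : Module.End ℚ_[q] (VT q (JC Om l μ a))) * zK q s =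
      zK q s * VT.map q (actA g hg 1) := by
  have hne := GFD_ne l
  have hded : IsDedekindDomain (CR Om l μ a) := hDD Om l n μ a
  exact (hNBK Om l n q μ a).2.2.1 g hg s (GFD_root l g hgr s)

theorem GFD_pow (hNBK : NBK_stmt) (hDD : GJ.DD_stmt) (g : Om ≃+* Om) (hg : ∀ j, g (a j) = a j) (m : ℕ)
    (hgm : ∀ j, (g ^ m) (a j) = a j) :
    (VT.map q (actA (g ^ m) hgm (1 : rootsOfUnity l Om)) : Module.End ℚ_[q] (VT q (JC Om l μ a))) =
      (VT.map q (actA g hg 1)) ^ m := by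
  have hne := GFD_ne l
  have hded : IsDedekindDomain (CR Om l μ a) := hDD Om l n μ a
  obtain ⟨h1, h2, -⟩ := hNBK Om l n q μ a
  have key : ∀ (m : ℕ) (σ : Om ≃+* Om) (h : ∀ j, σ (a j) = a j), σ = g ^ m →
      (VT.map q (actA σ h (1 : rootsOfUnity l Om)) : Module.End ℚ_[q] (VT q (JC Om l μ a))) =
        (VT.map q (actA g hg 1)) ^ m := by
    intro m
    induction m with
    | zero =>
      intro σ h e
      rw [pow_zero] at e ⊢
      subst e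
      exact h2 h
    | succ m ih =>
      intro σ h e
      rw [pow_succ] at e ⊢
      subst e
      have hm : ∀ j, (g ^ m) (a j) = a j := fun j => GFD_fixpow g (a j) (hg j) m
      rw [← ih (g ^ m) hm rfl]
      exact h1 (g ^ m) g hm hg h
  exact key m (g ^ m) hgm rfl

theorem GFD_detpow (hLP : LP_stmt) (hVF : VF_stmt) (hNBK : NBK_stmt) (hDD : GJ.DD_stmt) (hl : l ≠ 2) (hn : 0 < n)
    (s : rootsOfUnity l Om) (hs : Prim s) (g : Om ≃+* Om) (hg : ∀ j, g (a j) = a j)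
    (hgr : ∀ x : Om, x ^ l = 1 → g x = x) (m : ℕ) (hgm : ∀ j, (g ^ m) (a j) = a j) (x : Fl q l)
    (hx : IsDet l (zK q s : Module.End ℚ_[q] (VT q (JC Om l μ a))) (VT.map q (actA g hg 1)) x) :
    IsDet l (zK q s : Module.End ℚ_[q] (VT q (JC Om l μ a))) (VT.map q (actA (g ^ m) hgm 1)) (x ^ m) := by
  obtain ⟨-, -, h3, h4, -⟩ := hLP q l (VT q (JC Om l μ a)) (zK q s) n (GFD_free l n q μ a hVF hDD hl hn s hs)
    (GFD_sum l n q μ a hNBK hDD s hs)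
  have hc := GFD_comm l n q μ a hNBK hDD s g hg hgr
  rw [GFD_pow l n q μ a hNBK hDD g hg m hgm]
  clear hgm
  induction m with
  | zero =>
    rw [pow_zero, pow_zero]
    exact h4
  | succ m ih =>
    rw [pow_succ, pow_succ]
    refine h3 _ _ _ _ ?_ hc ih hx
    exact (Commute.pow_left (show Commute (VT.map q (actA g hg (1 : rootsOfUnity l Om)) : Module.End ℚ_[q] (VT q (JC Om l μ a))) (zK q s) from hc) m)

theorem GFD_ex (hLP : LP_stmt) (hVF : VF_stmt) (hNBK : NBK_stmt) (hDD : GJ.DD_stmt) (hl : l ≠ 2) (hn : 0 < n)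
    (s : rootsOfUnity l Om) (hs : Prim s) (g : Om ≃+* Om) (hg : ∀ j, g (a j) = a j)
    (hgr : ∀ x : Om, x ^ l = 1 → g x = x) :
    ∃ x, IsDet l (zK q s : Module.End ℚ_[q] (VT q (JC Om l μ a))) (VT.map q (actA g hg 1)) x :=
  (hLP q l (VT q (JC Om l μ a)) (zK q s) n (GFD_free l n q μ a hVF hDD hl hn s hs)
    (GFD_sum l n q μ a hNBK hDD s hs)).1 _ (GFD_comm l n q μ a hNBK hDD s g hg hgr)

end one

/-- the datum of one curve -/
@[reducible] def GFD_D (l n : ℕ) (μ : Fin (n + 1) → ℕ) (a : Fin (n + 1) → Om) (hgood : Good Om l μ a) : Dat l where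
  k := 1
  n := fun _ => n
  μ := fun _ => μ
  a := fun _ => a
  good := fun _ => hgood
  e := fun _ => 1
  r := 0
  m := fun i => i.elim0
  pos := fun i => i.elim0

theorem GFD_fl (q l : ℕ) [Fact q.Prime] (c : ℚ_[q]) (m : ℕ) : (fl (C (c ^ m)) : Fl q l) = fl (C c) ^ m := by
  show AdjoinRoot.mk (cyclotomic l ℚ_[q]) _ = (AdjoinRoot.mk (cyclotomic l ℚ_[q]) _) ^ m
  rw [← map_pow, ← map_pow]

theorem GFD_chi (q : ℕ) [Fact q.Prime] (g : Om ≃+* Om) (m : ℕ) : chiO q (g ^ m) = chiO q g ^ m := by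
  unfold chiO
  rw [map_pow]
  push_cast
  rfl

theorem GFD (hGFR : GFR_stmt) (hNT1 : NT1_stmt) (hDC : DC_stmt) (hT7 : GJ.T7_stmt) (hLP : LP_stmt) (hVF : VF_stmt) (hNBK : NBK_stmt) (hDD : GJ.DD_stmt) : GFD_stmt := by
  intro l n q _ _ hl hn μ a _
  obtain ⟨a'', good'', σ0, hσ0, hσ0r, hσ0c⟩ := hNT1 l q hl (GFD_D l n μ a ‹_›) (fun _ => hn)
  obtain ⟨a', ha'⟩ : ∃ a' : Fin (n + 1) → Om, a' = a'' 0 := ⟨_, rfl⟩
  have good' : Good Om l μ a' := by rw [ha']; exact good'' 0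
  obtain ⟨w2, hw2, hG⟩ : ∃ w : ℕ, 0 < w ∧
      ∀ (g : Om ≃+* Om) (hg : ∀ j, g (a' j) = a' j), (∀ x : Om, x ^ l = 1 → g x = x) → ∀ s : rootsOfUnity l Om, Prim s →
      ∀ (x : Fl q l) (y : ℕ → ℕ → Fl q l),
      IsDet l (zK q s : Module.End ℚ_[q] (VT q (JC Om l μ a'))) (VT.map q (actA g hg 1)) x →
      (∀ b k, 0 < b → b < l → 0 < k → k + 1 < l → IsKap l q s g b k (y b k)) →
      (x ^ l * ∏ k ∈ Finset.Ico 1 (l - 1), y ((∑ j, μ j) % l) k) ^ w =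
        ((fl (C (chiO q g)) : Fl q l) ^ n * ∏ j, ∏ k ∈ Finset.Ico 1 (l - 1), y (μ j) k) ^ w := by
    subst ha'
    exact hGFR l n q hl hn μ (a'' 0) σ0 (hσ0 0) hσ0r (hσ0c 0).1
  obtain ⟨S, w1, hw1, hSa, hSa', hSl, hS⟩ := hDC l n q hl hn μ a a'
  obtain ⟨m, hm, hmS⟩ := hT7 S
  refine ⟨m * w1 * w2, by positivity, ?_⟩
  intro g hg hgr s hs x y hx hy
  have hgm : ∀ j, (g ^ m) (a j) = a j := fun j => hmS g _ (hSa j)
  have hgm' : ∀ j, (g ^ m) (a' j) = a' j := fun j => hmS g _ (hSa' j)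
  have hgmr : ∀ x : Om, x ^ l = 1 → (g ^ m) x = x := fun x hx => hmS g _ (hSl x hx)
  have hxm := GFD_detpow l n q μ a hLP hVF hNBK hDD hl hn s hs g hg hgr m hgm x hx
  obtain ⟨x', hx'⟩ := GFD_ex l n q μ a' hLP hVF hNBK hDD hl hn s hs (g ^ m) hgm' hgmr
  have e1 := hS (g ^ m) (fun x hx => hmS g x hx) hgm hgm' s hs _ _ hxm hx'
  have e2 := hG (g ^ m) hgm' hgmr s hs x' (fun b k => y b k ^ m) hx' (by
    intro b k hb hbl hk hkl hgd
    exact GFD_detpow l 1 q (muJ l b k) aJ hLP hVF hNBK hDD hl one_pos s hs g (fixJ g) hgr m (fixJ (g ^ m)) _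
      (hy b k hb hbl hk hkl hgd))
  rw [GFD_chi, GFD_fl, Finset.prod_pow] at e2
  have e3 : ∏ j, ∏ k ∈ Finset.Ico 1 (l - 1), y (μ j) k ^ m = (∏ j, ∏ k ∈ Finset.Ico 1 (l - 1), y (μ j) k) ^ m := by
    rw [← Finset.prod_pow]
    refine Finset.prod_congr rfl fun j _ => ?_
    rw [Finset.prod_pow]
  rw [e3] at e2
  have e4 : (x ^ l * ∏ k ∈ Finset.Ico 1 (l - 1), y ((∑ j, μ j) % l) k) ^ (m * w1 * w2) =
      ((x' ^ l * (∏ k ∈ Finset.Ico 1 (l - 1), y ((∑ j, μ j) % l) k) ^ m) ^ w2) ^ w1 := by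
    generalize (∏ k ∈ Finset.Ico 1 (l - 1), y ((∑ j, μ j) % l) k) = Y
    calc (x ^ l * Y) ^ (m * w1 * w2) = ((x ^ m) ^ w1) ^ (l * w2) * Y ^ (m * w1 * w2) := by ring
      _ = (x' ^ w1) ^ (l * w2) * Y ^ (m * w1 * w2) := by rw [e1]
      _ = ((x' ^ l * Y ^ m) ^ w2) ^ w1 := by ring
  rw [e4, e2]
  ring

end

end Pool.Agent.TI
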