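import Pool.Agent.helper63.TI.SpecG
import Pool.Agent.helper72.TI.GFD

/-!
# TI, row GDF: the determinant of every Frobenius
-/

set_option autoImplicit false

namespace Pool.Agent.TI

open Polynomial NumberField Pool.Agent.GJ Pool.Agent.TK Pool.Agent.TQ Pool.Agent.TFQ Pool.Agent.TD
open Pool.Agent.FJ (VT Om chiO IsFrobO rf rs)

noncomputable section

theorem GDF_unit (l n q : ℕ) [Fact l.Prime] [Fact q.Prime] (μ : Fin (n + 1) → ℕ) (a : Fin (n + 1) → Om) [Good Om l μ a]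
    (hLP : LP_stmt) (hVF : VF_stmt) (hNBK : NBK_stmt) (hDD : GJ.DD_stmt) (hl : l ≠ 2) (hn : 0 < n)
    (s : rootsOfUnity l Om) (hs : Prim s) (g : Om ≃+* Om) (hg : ∀ j, g (a j) = a j)
    (hgr : ∀ x : Om, x ^ l = 1 → g x = x) (x : Fl q l)
    (hx : IsDet l (zK q s : Module.End ℚ_[q] (VT q (JC Om l μ a))) (VT.map q (actA g hg 1)) x) : IsUnit x := by
  have hne := GFD_ne l
  have hded : IsDedekindDomain (CR Om l μ a) := hDD Om l n μ a
  have hinv : ∀ x : Om, g x = x → g⁻¹ x = x := by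
    intro x hx
    show g.symm x = x
    rw [RingEquiv.symm_apply_eq, hx]
  have hg' : ∀ j, g⁻¹ (a j) = a j := fun j => hinv _ (hg j)
  have hgr' : ∀ x : Om, x ^ l = 1 → g⁻¹ x = x := fun x hx => hinv _ (hgr x hx)
  obtain ⟨x', hx'⟩ := GFD_ex l n q μ a hLP hVF hNBK hDD hl hn s hs g⁻¹ hg' hgr'
  obtain ⟨-, h2, h3, h4, -⟩ := hLP q l (VT q (JC Om l μ a)) (zK q s) n (GFD_free l n q μ a hVF hDD hl hn s hs)
    (GFD_sum l n q μ a hNBK hDD s hs)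
  have h5 := h3 _ _ _ _ (GFD_comm l n q μ a hNBK hDD s g hg hgr) (GFD_comm l n q μ a hNBK hDD s g⁻¹ hg' hgr') hx hx'
  obtain ⟨k1, k2, -⟩ := hNBK Om l n q μ a
  have key : ∀ (σ : Om ≃+* Om) (h : ∀ j, σ (a j) = a j), σ = 1 →
      (VT.map q (actA σ h (1 : rootsOfUnity l Om)) : Module.End ℚ_[q] (VT q (JC Om l μ a))) = 1 := by
    intro σ h e
    subst e
    exact k2 h
  have h6 : ∀ j, (g * g⁻¹) (a j) = a j := by
    intro j
    rw [mul_inv_cancel]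
    rfl
  rw [← k1 g g⁻¹ hg hg' h6, key _ h6 (mul_inv_cancel g)] at h5
  have h7 := h2 1 _ _ (by rw [one_mul, mul_one]) h5 h4
  exact IsUnit.of_mul_eq_one _ h7

theorem GDF (hGFD : GFD_stmt) (hGPL : GPL_stmt) (hLP : LP_stmt) (hVF : VF_stmt) (hNBK : NBK_stmt) (hE4 : FJ.E4_stmt) (hDD : GJ.DD_stmt) : GDF_stmt := by
  classical
  intro l n q _ _ hl hn μ a hgood
  have hlp : l.Prime := Fact.out
  have hqp : q.Prime := Fact.out
  obtain ⟨w0, hw0, hG⟩ := hGFD l n q hl hn μ a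
  obtain ⟨D1, hD1, hP⟩ := hGPL l n q hl μ a
  refine ⟨l * w0, q * D1, Nat.mul_pos hlp.pos hw0, Nat.mul_pos hqp.pos hD1, ?_⟩
  intro p M α _ F _ _ _ O _ e χ σ A hPl hcq hD0 s hs P hIsPol x hx
  rw [Nat.cast_mul] at hD0
  have hq0 : ((q : ℕ) : rf O) ≠ 0 := left_ne_zero_of_mul hD0
  have hD1' : ((D1 : ℕ) : rf O) ≠ 0 := right_ne_zero_of_mul hD0
  have hex : ∀ b k, ∃ y : Fl q l, 0 < b → b < l → 0 < k → k + 1 < l → IsKap l q s σ b k y ∧ IsUnit y := by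
    intro b k
    by_cases h : 0 < b ∧ b < l ∧ 0 < k ∧ k + 1 < l
    · obtain ⟨hb, hbl, hk, hkl⟩ := h
      have hgd : Good Om l (muJ l b k) aJ := goodJ hb hbl hk hkl
      obtain ⟨y, hy⟩ := GFD_ex l 1 q (muJ l b k) aJ hLP hVF hNBK hDD hl one_pos s hs σ (fixJ σ) hPl.zeta
      refine ⟨y, fun _ _ _ _ => ⟨fun _ => hy, ?_⟩⟩
      exact GDF_unit l 1 q (muJ l b k) aJ hLP hVF hNBK hDD hl one_pos s hs σ (fixJ σ) hPl.zeta y hy
    · exact ⟨1, fun h1 h2 h3 h4 => absurd ⟨h1, h2, h3, h4⟩ h⟩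
  choose y hy using hex
  have e1 := hG σ hPl.fix hPl.zeta s hs x y hx (fun b k h1 h2 h3 h4 => (hy b k h1 h2 h3 h4).1)
  have e2 := hP p M α F O e χ σ A hPl hcq hD1' s hs P hIsPol y (fun b k h1 h2 h3 h4 => (hy b k h1 h2 h3 h4).1)
  have hchi : chiO q σ = ((cq F : ℕ) : ℚ_[q]) := hE4 O σ (cq F) q hPl.frob hq0
  have hfl : (fl (C ((cq F : ℕ) : ℚ_[q])) : Fl q l) = (cq F : Fl q l) := by
    show AdjoinRoot.mk (cyclotomic l ℚ_[q]) _ = _
    rw [map_natCast, map_natCast]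
  rw [hchi, hfl, ← e2] at e1
  have hS0 : 0 < (∑ j, μ j) % l := by
    refine Nat.pos_of_ne_zero fun h => hgood.inf (Nat.dvd_of_mod_eq_zero h)
  have hSl : (∑ j, μ j) % l < l := Nat.mod_lt _ hlp.pos
  have hY : IsUnit (∏ k ∈ Finset.Ico 1 (l - 1), y ((∑ j, μ j) % l) k) := by
    refine Finset.prod_induction _ IsUnit (fun _ _ => IsUnit.mul) isUnit_one fun k hk => ?_
    rw [Finset.mem_Ico] at hk
    exact (hy _ k hS0 hSl (by omega) (by omega)).2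
  rw [mul_pow, mul_pow (_ ^ l)] at e1
  have e3 := (hY.pow w0).mul_right_cancel e1
  rw [pow_mul, pow_mul]
  exact e3

end

end Pool.Agent.TI
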